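import Mathlib
import Pool.Agent.Q307.RF.Defs
import Pool.Agent.Q307.RF.Gen
import Pool.Agent.Q307.RF.Dom
import Pool.Agent.Q307.RF.Pol

/-!
# The polarized relation at `𝔡` fails after adding at least `𝔡` random reals

Random forcing `𝔹(I)` is the measure algebra of `2 ^ (I × ω)`. If `I` has at least `𝔡` elements,
where `𝔡` is the dominating number of the ground model, then every condition forces that all
cardinals are preserved, that the dominating number is still `𝔡`, and that the strong polarized
relation of `𝔡` and `ω` fails. Nothing is assumed about the ground model, so the relation fails in
the extension also if it holds in the ground model.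

Proof. Colour `(k, n)` with the `n`-th bit of the `k`-th random real. A name for an infinite subset
`B` of `ω` depends on countably many random reals only. If `A` is uncountable, then some condition
forces `k ∈ A` for some `k` outside this countable set, and almost surely the `k`-th random real is
not constant on `B`. The dominating number does not change, since every named function is
eventually bounded by a function of the ground model, by the Borel-Cantelli lemma.
-/

set_option autoImplicit false

namespace Pool.Agent.Results.MP_95a70f_lc.FailsAfterRandom

open Cardinal Pool.Agent.TH773.PSet Pool.Agent.Helper669.Dom Pool.Agent.Q307.RF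

/-- Let `I` have at least `𝔡` elements. Every condition of random forcing `𝔹(I)` forces: all
cardinals are preserved; the dominating number is the dominating number `𝔡` of the ground model;
the strong polarized relation of `κ` and `ω` fails for every uncountable cardinal `κ ≤ |I|`, in
particular for `κ = 𝔡`. -/
theorem result (I : Type) (hI : dNum ≤ #I) : Nonempty (Random I) ∧ ∀ p : Random I,
    p ∈ CardinalsPreserved.{0, 0} (Random I) ∧ p ∈ DomIs (Random I) dNum ∧
      p ∈ fnot (Polarized (Random I) dNum.out) ∧
        ∀ κ : Cardinal.{0}, ℵ₀ < κ → κ ≤ #I → p ∈ fnot (Polarized (Random I) κ.out) := by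
  refine ⟨⟨⟨Set.univ, MeasurableSet.univ, ?_⟩⟩, fun p =>
    ⟨cardinalsPreserved_of_ccc ccc_cond p, domIs_of p, ?_, fun κ hκ hκI => ?_⟩⟩
  · rw [MeasureTheory.measure_univ]
    exact one_ne_zero
  · exact not_polarized (by rw [mk_out]; exact aleph0_lt_dNum) (by rwa [mk_out]) p
  · exact not_polarized (by rwa [mk_out]) (by rwa [mk_out]) p

end Pool.Agent.Results.MP_95a70f_lc.FailsAfterRandom
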